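import Mathlib
import Pool.Agent.R127.LkkAntichains

/-!
The number of antichains of the restricted Young lattice `L(n,n)`: its logarithm has the order of
magnitude of `C(2n, n) / n^(3/2)`.

Upper bound: every set of at least `c C(2n, n) / n^(3/2)` elements contains an element comparable to at
least `c' n²` others (a random chain measure coming from the flow with weights `p (2n - p)`), so that
the antichains are counted by a simple container argument.
-/

namespace Pool.Agent.Results.MP_269158_co.LogOrder

open Pool.Agent.R127.LkkFlow Filter Asymptotics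

/-- The restricted Young lattice `L(n,n)`: the integer partitions `n ≥ λ_1 ≥ ... ≥ λ_n ≥ 0`, ordered
by containment of diagrams, i.e. coordinatewise. -/
def L (n : ℕ) : Set (Fin n → ℕ) := {lam | Antitone lam ∧ ∀ i, lam i ≤ n}

/-- `A(n)`: the number of antichains of `L(n,n)`, including the empty one. -/
noncomputable def A (n : ℕ) : ℕ :=
  {S : Set (Fin n → ℕ) | S ⊆ L n ∧ IsAntichain (· ≤ ·) S}.ncard

/-- a nondecreasing sequence, reversed -/
def rv {n : ℕ} (x : LL n) : Fin n → ℕ := x.1 ∘ Fin.rev

theorem rv_le {n : ℕ} (x y : LL n) : rv x ≤ rv y ↔ x ≤ y := by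
  constructor
  · intro h i
    have := h (Fin.rev i)
    simpa [rv] using this
  · intro h i
    exact h (Fin.rev i)

theorem rv_injective (n : ℕ) : Function.Injective (rv (n := n)) := by
  intro x y h
  exact le_antisymm ((rv_le x y).mp h.le) ((rv_le y x).mp h.ge)

theorem rv_mem {n : ℕ} (x : LL n) : rv x ∈ L n := by
  refine ⟨fun i j h => x.2.1 (Fin.rev_le_rev.mpr h), fun i => x.2.2 _⟩

theorem exists_rv {n : ℕ} {lam : Fin n → ℕ} (h : lam ∈ L n) : ∃ x : LL n, rv x = lam := by
  refine ⟨⟨lam ∘ Fin.rev, fun i j hij => h.1 (Fin.rev_le_rev.mpr hij), fun i => h.2 _⟩, ?_⟩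
  funext i
  simp [rv]

theorem A_eq (n : ℕ) : A n = ac (Finset.univ : Finset (LL n)) := by
  classical
  have h1 : {S : Set (Fin n → ℕ) | S ⊆ L n ∧ IsAntichain (· ≤ ·) S} =
      (fun S : Finset (LL n) => rv '' (S : Set (LL n))) ''
        (((Finset.univ : Finset (LL n)).powerset.filter fun S : Finset (LL n) =>
          IsAntichain (· ≤ ·) (S : Set (LL n)) : Finset (Finset (LL n))) : Set (Finset (LL n))) := by
    ext S
    simp only [Set.mem_ofPred_eq, Set.mem_image, Finset.coe_filter, Finset.mem_powerset,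
      Finset.subset_univ, true_and]
    constructor
    · rintro ⟨hS, hA⟩
      refine ⟨Finset.univ.filter fun x => rv x ∈ S, ?_, ?_⟩
      · intro x hx y hy hxy hle
        have hx' : rv x ∈ S := by simpa using hx
        have hy' : rv y ∈ S := by simpa using hy
        exact hA hx' hy' (fun h => hxy (rv_injective n h)) ((rv_le x y).mpr hle)
      · ext lam
        simp only [Finset.coe_filter, Finset.mem_univ, true_and, Set.mem_image, Set.mem_ofPred_eq]
        constructor
        · rintro ⟨x, hx, rfl⟩
          exact hx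
        · intro hl
          obtain ⟨x, rfl⟩ := exists_rv (hS hl)
          exact ⟨x, hl, rfl⟩
    · rintro ⟨S', hA, rfl⟩
      refine ⟨?_, ?_⟩
      · rintro _ ⟨x, -, rfl⟩
        exact rv_mem x
      · rintro _ ⟨x, hx, rfl⟩ _ ⟨y, hy, rfl⟩ hxy hle
        exact hA hx hy (fun h => hxy (congrArg rv h)) ((rv_le x y).mp hle)
  unfold A
  rw [h1, Set.ncard_image_of_injective, Set.ncard_coe_finset]
  · rfl
  · intro S S' h
    have : (S : Set (LL n)) = S' := (rv_injective n).image_injective h
    exact_mod_cast this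

/-- **The logarithm of the number of antichains of `L(n,n)`** has the order of magnitude of
`C(2n, n) / n^(3/2)`. -/
theorem result :
    (fun n : ℕ => Real.logb 2 (A n)) =Θ[atTop]
      (fun n : ℕ => ((2 * n).choose n : ℝ) / (n : ℝ) ^ (3 / 2 : ℝ)) := by
  obtain ⟨k₀, hk₀⟩ := upper_bound
  refine ⟨?_, ?_⟩
  · apply IsBigO.of_bound 1540
    filter_upwards [eventually_ge_atTop k₀, eventually_ge_atTop 1] with n hn hn1
    have h1 := hk₀ n hn
    have h2 := lower_bound n hn1
    rw [← A_eq] at h1 h2
    have hA : (0 : ℝ) < (A n : ℝ) := lt_of_lt_of_le (Real.rpow_pos_of_pos (by norm_num) _) h2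
    have h3 : Real.logb 2 (A n) ≤ 1540 * ((n : ℝ) ^ (3 / 2 : ℝ))⁻¹ * ((2 * n).choose n : ℝ) := by
      rw [Real.logb_le_iff_le_rpow (by norm_num) hA]
      exact h1
    have h4 : 0 ≤ Real.logb 2 (A n) := by
      apply Real.logb_nonneg (by norm_num)
      refine le_trans ?_ h2
      apply Real.one_le_rpow (by norm_num)
      positivity
    rw [Real.norm_of_nonneg h4, Real.norm_of_nonneg (by positivity)]
    refine le_trans h3 (le_of_eq ?_)
    rw [div_eq_mul_inv]
    ring
  · apply IsBigO.of_bound 12
    filter_upwards [eventually_ge_atTop 1] with n hn1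
    have h2 := lower_bound n hn1
    rw [← A_eq] at h2
    have hA : (0 : ℝ) < (A n : ℝ) := lt_of_lt_of_le (Real.rpow_pos_of_pos (by norm_num) _) h2
    have h3 : ((2 * n).choose n : ℝ) / (12 * (n : ℝ) ^ (3 / 2 : ℝ)) ≤ Real.logb 2 (A n) := by
      rw [Real.le_logb_iff_rpow_le (by norm_num) hA]
      exact h2
    have hn0 : (0 : ℝ) < (n : ℝ) ^ (3 / 2 : ℝ) :=
      Real.rpow_pos_of_pos (by exact_mod_cast hn1) _
    rw [Real.norm_of_nonneg (by positivity)]
    calc ((2 * n).choose n : ℝ) / (n : ℝ) ^ (3 / 2 : ℝ)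
        = 12 * (((2 * n).choose n : ℝ) / (12 * (n : ℝ) ^ (3 / 2 : ℝ))) := by field_simp
      _ ≤ 12 * Real.logb 2 (A n) := by linarith
      _ ≤ 12 * ‖Real.logb 2 (A n)‖ := by
          have := Real.le_norm_self (Real.logb 2 (A n))
          linarith

end Pool.Agent.Results.MP_269158_co.LogOrder
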